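import Pool.Agent.Y916.Al.Gel

/-!
# Logarithms of algebraic numbers in a window around an algebraic number, over arbitrary constants

Let `ξ` be an algebraic number and consider the algebraic numbers `ξ + β` of a window around `ξ`: the
`β` are algebraic of bounded degree with coefficients of their equations at most `H`, and `|ξ|` is at
least a power of `H`. We show that outside a set of at most two of the numbers `ξ + β` any values of
the logarithms of any `k` different numbers of the window satisfy no nontrivial relation of bounded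
degree over any number field of bounded degree, whatever the coefficients are. If arbitrary constants
`w_1, …, w_q` are admitted in the relations (for instance `π`, `e`, and logarithms of any other
numbers, whose dependence on each other is not known), then at most `q + 2` numbers are exceptional,
and every relation is an identity in the logarithms.

The proof is Siegel's method for the functions `log (1 + β z)` and their powers, for all shifts `β` at
once, at the point `z = 1 / ξ`, with unknown constants: see `Pool.Agent.Y916.Al.windowP` in the starting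
library (helper261, helper419, helper113, helper787, helper708, helper921, helper333).
-/

set_option autoImplicit false

namespace Pool.Agent.Results.MP_60829e_nt.AlgebraicWindows

/-- For all `q`, `k`, `d`, `δ`, `m`, `A` there is `E` such that for all `H`, all complex `ξ` with
`|ξ| ≥ (H + 2)^E` which are roots of a nonzero integral polynomial of degree at most `m` with
coefficients at most `|ξ|^A`, and all complex `w_1, …, w_q` there is a set `S` of at most `q + 2` numbers
such that for all different nonzero `β_1, …, β_k` outside `S` which are roots of nonzero integral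
polynomials of degree at most `d` with coefficients at most `H`, all logarithms `x_i` of `ξ + β_i` and
all number fields `K` of degree at most `d` every polynomial `P` over `K` of degree at most `δ` which
vanishes at `w_1, …, w_q, x_1, …, x_k` is zero after the substitution of `w_1, …, w_q`. -/
theorem result (q k d δ m A : ℕ) : ∃ E : ℕ, ∀ (H : ℕ) (ξ : ℂ), ((H : ℝ) + 2) ^ E ≤ ‖ξ‖ →
    (∃ p : Polynomial ℤ, p ≠ 0 ∧ p.natDegree ≤ m ∧ (∀ j, |(p.coeff j : ℝ)| ≤ ‖ξ‖ ^ A) ∧
      Polynomial.aeval ξ p = 0) →
    ∀ w : Fin q → ℂ, ∃ S : Finset ℂ, S.card ≤ q + 2 ∧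
      ∀ β : Fin k → ℂ, Function.Injective β → (∀ i, β i ∉ S ∧ β i ≠ 0) →
      (∀ i, ∃ p : Polynomial ℤ, p ≠ 0 ∧ p.natDegree ≤ d ∧ (∀ j, |p.coeff j| ≤ (H : ℤ)) ∧
        Polynomial.aeval (β i) p = 0) →
      ∀ x : Fin k → ℂ, (∀ i, Complex.exp (x i) = ξ + β i) →
      ∀ K : IntermediateField ℚ ℂ, FiniteDimensional ℚ K → Module.finrank ℚ K ≤ d →
      ∀ P : MvPolynomial (Fin q ⊕ Fin k) K, P.totalDegree ≤ δ →
        MvPolynomial.aeval (Sum.elim w x) P = 0 →
        MvPolynomial.aeval (Sum.elim (fun j => MvPolynomial.C (w j)) MvPolynomial.X) P =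
          (0 : MvPolynomial (Fin k) ℂ) := by
  classical
  obtain ⟨E, hE1, hE⟩ := Pool.Agent.Y916.Al.windowP k d δ (q + 2) 1 1 m A
  refine ⟨E, fun H ξ hξ hHt u => ?_⟩
  have hξ0 : ξ ≠ 0 := by
    rw [← norm_pos_iff]
    have hH : (0 : ℝ) < (H : ℝ) + 2 := by linarith [(Nat.cast_nonneg H : (0 : ℝ) ≤ H)]
    exact lt_of_lt_of_le (by positivity) hξ
  set w : Fin (q + 2) → ℂ := Fin.append u ![Complex.log ξ, 2 * Real.pi * Complex.I] with hw
  obtain ⟨S, hS, h⟩ := hE H ξ hξ hHt (Fin (q + 2)) w Finset.univ
    (by rw [Finset.card_univ, Fintype.card_fin]) (Pool.Agent.Y916.Om.Dom.univ w)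
  refine ⟨S, hS, ?_⟩
  intro β hinj hβ hβa x hx K hK hKd P hPd hPv
  have hst : ∀ i, ∃ a : K, a ≠ 0 ∧ x i - a * Complex.log (1 + β i / ξ) ∈
      Submodule.span K (insert 1 (Set.range w)) := by
    intro i
    refine ⟨1, one_ne_zero, ?_⟩
    have h1 : (1 : ℂ) + β i / ξ ≠ 0 := by
      intro h0
      have h2 : ξ + β i = 0 := by
        have h3 : ξ * (1 + β i / ξ) = ξ + β i := by
          field_simp
        rw [← h3, h0, mul_zero]
      rw [← hx i] at h2
      exact Complex.exp_ne_zero _ h2
    obtain ⟨κ, hκ⟩ := Pool.Agent.Y916.Al.log_mul_mem hξ0 h1 (l := x i) (by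
      rw [hx i]
      field_simp)
    have h3 : x i - ((1 : K) : ℂ) * Complex.log (1 + β i / ξ) =
        w (Fin.natAdd q 0) + (κ : ℂ) * w (Fin.natAdd q 1) := by
      have h5 : ((1 : K) : ℂ) = 1 := rfl
      rw [h5, one_mul, hκ, hw, Fin.append_right, Fin.append_right]
      simp
    rw [h3]
    refine Submodule.add_mem _ (Submodule.subset_span (Set.mem_insert_of_mem _ ⟨_, rfl⟩)) ?_
    have h4 : (κ : ℂ) * w (Fin.natAdd q 1) = (κ : K) • w (Fin.natAdd q 1) := by
      rw [Algebra.smul_def]
      simp
    rw [h4]
    exact Submodule.smul_mem _ _ (Submodule.subset_span (Set.mem_insert_of_mem _ ⟨_, rfl⟩))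
  have hwe : ∀ j : Fin q, w (Fin.castAdd 2 j) = u j := by
    intro j
    rw [hw, Fin.append_left]
  have key := h β hinj (fun i => ⟨(hβ i).1, (hβ i).2, hβa i⟩) K hK hKd x hst
    (MvPolynomial.rename (Sum.map (Fin.castAdd 2) id) P)
    ((MvPolynomial.totalDegree_rename_le _ _).trans hPd) (by
      rw [MvPolynomial.aeval_rename, ← hPv]
      congr 2
      funext y
      rcases y with y | y
      · exact hwe y
      · rfl)
  rw [MvPolynomial.aeval_rename] at key
  rw [← key]
  congr 2
  funext y
  rcases y with y | y
  · show MvPolynomial.C (u y) = MvPolynomial.C (w (Fin.castAdd 2 y))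
    rw [hwe]
  · rfl

end Pool.Agent.Results.MP_60829e_nt.AlgebraicWindows
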