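import Pool.Agent.W254.HP.Gen

/-!
# Relations linear in logarithms whose coefficients are polynomials in arbitrary numbers

Let `LogForms` be the space of all linear combinations, with algebraic coefficients, of `1` and
logarithms of algebraic numbers, and let `t_1, …, t_n` be ARBITRARY complex numbers (for example
logarithms of algebraic numbers, `π`, `e`; nothing is assumed about them). Fix a degree bound `D`.
All but at most `(4 D)^n - 2^n` members (`4 D - 2` for `n = 1 ≤ D`) of any family of linear forms
in logarithms which are linearly independent over `ℚ̄` are linearly independent over the space of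
the values at `t` of the polynomials of degree at most `D` in each variable; one member (for
example `1`) can be prescribed to be not exceptional. Hence the relations of degree at most `D` in
`t_1, …, t_n` which are linear in logarithms of algebraic numbers, linearly independent over `ℚ`,
are trivial as soon as none of at most `(4 D)^n - 2^n` exceptional logarithms occurs in them; and
`m` linear forms in logarithms which, with `1`, are linearly independent over `ℚ̄` are the values
at a point of `ℂ^n` of rational functions of degree at most `D` only if `m ≤ (4 D)^n - 2^n`.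

Assembled from the unused library theorem `Pool.Agent.W254.HP.gen_relations` (the hyperplane case
of the linear subgroup theorem of Waldschmidt and Roy, and a doubling inequality for the spaces of
polynomials of degree at most `D` at a point).
-/

set_option autoImplicit false

namespace Pool.Agent.Results.MP_60829e_nt.PolynomialCoefficients

open MvPolynomial

/-- The linear combinations, with algebraic coefficients, of `1` and logarithms of algebraic
numbers. -/
noncomputable def LogForms : Submodule (algebraicClosure ℚ ℂ) ℂ :=
  Submodule.span (algebraicClosure ℚ ℂ) ({1} ∪ {z : ℂ | IsAlgebraic ℚ (Complex.exp z)})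

theorem part_one (n D : ℕ) (t : Fin n → ℂ) (ι : Type) (y : ι → ℂ) (hy : ∀ i, y i ∈ LogForms)
    (hyi : LinearIndependent (algebraicClosure ℚ ℂ) y) (i₀ : ι) :
    ∃ E : Finset ι, i₀ ∉ E ∧ E.card ≤ (4 * D) ^ n - 2 ^ n ∧
      ∀ (s : Finset ι) (P : ι → MvPolynomial (Fin n) (algebraicClosure ℚ ℂ)), Disjoint s E →
        (∀ i ∈ s, ∀ j, (P i).degreeOf j ≤ D) → ∑ i ∈ s, aeval t (P i) * y i = 0 →
        ∀ i ∈ s, aeval t (P i) = 0 := by
  classical
  obtain ⟨E, h0, hc, H⟩ := Pool.Agent.W254.HP.gen_relations t D y hyi hy i₀
  refine ⟨E, h0, hc, fun s P hs hP h => ?_⟩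
  let Q : ι →₀ MvPolynomial (Fin n) (algebraicClosure ℚ ℂ) :=
    Finsupp.onFinset s (fun i => if i ∈ s then P i else 0) (fun i hi => by
      by_contra hc
      simp [hc] at hi)
  have hQ : ∀ i, Q i = if i ∈ s then P i else 0 := fun i => rfl
  have key := H Q (fun i m hm j => ?_) (fun i hi => ?_) ?_
  · intro i hi
    have := key i
    rwa [hQ i, if_pos hi] at this
  · rw [hQ i] at hm
    split_ifs at hm with hi
    · exact (monomial_le_degreeOf j hm).trans (hP i hi j)
    · simp at hm
  · have hi' : i ∉ s := fun hs' => (Finset.disjoint_left.1 hs hs') hi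
    rw [hQ i, if_neg hi', map_zero]
  · rw [Finsupp.onFinset_sum _ (fun i => by simp)]
    rw [← h]
    refine Finset.sum_congr rfl fun i hi => ?_
    rw [if_pos hi]

/-- Let `t` be any point of `ℂ^n`. (1) Linear forms in logarithms, linearly independent over `ℚ̄`.
(2) Logarithms of algebraic numbers, linearly independent over `ℚ`. (3) Linear forms in logarithms
which are values of rational functions at `t`. -/
theorem result (n D : ℕ) (t : Fin n → ℂ) :
    (∀ (ι : Type) (y : ι → ℂ), (∀ i, y i ∈ LogForms) →
      LinearIndependent (algebraicClosure ℚ ℂ) y → ∀ i₀ : ι,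
      ∃ E : Finset ι, i₀ ∉ E ∧ E.card ≤ (4 * D) ^ n - 2 ^ n ∧
        ∀ (s : Finset ι) (P : ι → MvPolynomial (Fin n) (algebraicClosure ℚ ℂ)), Disjoint s E →
          (∀ i ∈ s, ∀ j, (P i).degreeOf j ≤ D) → ∑ i ∈ s, aeval t (P i) * y i = 0 →
          ∀ i ∈ s, aeval t (P i) = 0) ∧
    (∀ (ι : Type) (l : ι → ℂ), (∀ i, IsAlgebraic ℚ (Complex.exp (l i))) →
      LinearIndependent ℚ l →
      ∃ E : Finset ι, E.card ≤ (4 * D) ^ n - 2 ^ n ∧
        ∀ (s : Finset ι) (P₀ : MvPolynomial (Fin n) (algebraicClosure ℚ ℂ))
          (P : ι → MvPolynomial (Fin n) (algebraicClosure ℚ ℂ)), Disjoint s E →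
          (∀ j, P₀.degreeOf j ≤ D) → (∀ i ∈ s, ∀ j, (P i).degreeOf j ≤ D) →
          aeval t P₀ + ∑ i ∈ s, aeval t (P i) * l i = 0 →
          aeval t P₀ = 0 ∧ ∀ i ∈ s, aeval t (P i) = 0) ∧
    (∀ (m : ℕ) (y : Fin m → ℂ), (∀ i, y i ∈ LogForms) →
      LinearIndependent (algebraicClosure ℚ ℂ) (fun o : Option (Fin m) => o.elim 1 y) →
      (∀ i, ∃ A B : MvPolynomial (Fin n) (algebraicClosure ℚ ℂ), (∀ j, A.degreeOf j ≤ D) ∧
        (∀ j, B.degreeOf j ≤ D) ∧ aeval t B ≠ 0 ∧ y i = aeval t A / aeval t B) →
      m ≤ (4 * D) ^ n - 2 ^ n) := by
  classical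
  have one_mem : (1 : ℂ) ∈ LogForms := Submodule.subset_span (Or.inl rfl)
  refine ⟨fun ι y hy hyi i₀ => part_one n D t ι y hy hyi i₀, ?_, ?_⟩
  · intro ι l hl hli
    have hmem : ∀ o : Option ι, (o.elim 1 l : ℂ) ∈ LogForms := by
      intro o
      cases o with
      | none => exact one_mem
      | some i => exact Submodule.subset_span (Or.inr (hl i))
    obtain ⟨E, h0, hc, H⟩ := part_one n D t (Option ι) (fun o => o.elim 1 l) hmem
      (Pool.Agent.W254.HP.opt_indep l hl hli) none
    refine ⟨E.eraseNone, ?_, ?_⟩
    · refine le_trans ?_ hc
      rw [← Finset.card_map Function.Embedding.some]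
      apply Finset.card_le_card
      intro o ho
      obtain ⟨i, hi, rfl⟩ := Finset.mem_map.mp ho
      exact Finset.mem_eraseNone.mp hi
    · intro s P₀ P hs hP₀ hP h
      have key := H (Finset.insertNone s) (fun o => o.elim P₀ P) ?_ ?_ ?_
      · exact ⟨key none (by simp), fun i hi => key (some i) (by simpa using hi)⟩
      · rw [Finset.disjoint_left]
        intro o ho hE
        cases o with
        | none => exact h0 hE
        | some i =>
          have h1 : i ∈ s := by simpa using ho
          exact Finset.disjoint_left.1 hs h1 (Finset.mem_eraseNone.2 hE)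
      · intro o ho j
        cases o with
        | none => exact hP₀ j
        | some i => exact hP i (by simpa using ho) j
      · rw [Finset.sum_insertNone]
        simpa using h
  · intro m y hy hyi hR
    have hmem : ∀ o : Option (Fin m), (o.elim 1 y : ℂ) ∈ LogForms := by
      intro o
      cases o with
      | none => exact one_mem
      | some i => exact hy i
    obtain ⟨E, h0, hc, H⟩ := part_one n D t (Option (Fin m)) (fun o => o.elim 1 y) hmem hyi none
    have hall : ∀ i : Fin m, some i ∈ E := by
      intro i
      by_contra hi
      obtain ⟨A, B, hA, hB, hB0, hyAB⟩ := hR i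
      apply hB0
      have key := H {none, some i} (fun o => o.elim (-A) (fun _ => B)) ?_ ?_ ?_ (some i) (by simp)
      · simpa using key
      · rw [Finset.disjoint_left]
        intro o ho hE
        rcases Finset.mem_insert.1 ho with rfl | ho
        · exact h0 hE
        · rw [Finset.mem_singleton] at ho
          rw [ho] at hE
          exact hi hE
      · intro o ho j
        cases o with
        | none =>
          have : (-A).degreeOf j = A.degreeOf j := degreeOf_neg j A
          simpa [this] using hA j
        | some i' => simpa using hB j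
      · rw [Finset.sum_pair (by simp)]
        simp only [Option.elim_none, Option.elim_some, map_neg, mul_one]
        rw [hyAB]
        field_simp
        ring
    calc m = (Finset.univ.map (Function.Embedding.some : Fin m ↪ Option (Fin m))).card := by
          rw [Finset.card_map, Finset.card_univ, Fintype.card_fin]
      _ ≤ E.card := by
          apply Finset.card_le_card
          intro o ho
          obtain ⟨i, _, rfl⟩ := Finset.mem_map.mp ho
          exact hall i
      _ ≤ _ := hc

end Pool.Agent.Results.MP_60829e_nt.PolynomialCoefficients
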