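import Mathlib
import Pool.Agent.U534.Adapt
import Pool.Agent.Y918.GB.Mat

/-!
# Logarithms of random products and their irrational powers, with feedback

Let `λ_1, …, λ_k` be logarithms of algebraic numbers which are linearly independent over `ℚ`, let
`A` be a finite set of rational numbers, for instance `{0, 1}`, and let `1, β_1, …, β_d` be linearly
independent over `ℚ`. For `a ∈ A^k` let `L = a_1 λ_1 + ⋯ + a_k λ_k`; this is a logarithm of the
algebraic number `α = ∏ (exp λ_r)^(a_r)`, a random product. According to Schanuel's conjecture (for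
algebraic `β_i`: according to the conjecture of Gel'fond and Schneider) the `d + 1` numbers
`log α = L`, `α^(β_i) = exp (β_i L)` are algebraically independent, and for several such `α` with
`ℚ`-linearly independent logarithms all these numbers together are algebraically independent; for
`d = 0` this is the conjecture on the algebraic independence of logarithms.

We prove this in bounded degree for all but exponentially few systems of random products. There are
arbitrary constants `s_1, …, s_l` without relations of this degree, for instance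
`s_i = exp α_i` with algebraic numbers `α_i` which are linearly independent over `ℚ`
(Lindemann, Weierstrass), and there is feedback: the logarithms `λ_{j,1}, …, λ_{j,k}` and the numbers
`β_{j,1}, …, β_{j,d}` of the `j`-th step may depend in an arbitrary way on the parameters of the steps before,
and arbitrary numbers `ζ_j`, `ξ_{j,i}` with the same property may be added:

  `ζ_j + ∑_r a_{j,r} λ_{j,r}`,  `exp (ξ_{j,i} + β_{j,i} ∑_r a_{j,r} λ_{j,r})`  (`j ≤ n`, `i ≤ d`).

**Theorem.** For all `l`, `n`, `d`, `D` there are `k₀`, `C` and `δ > 0` such that for all `k ≥ k₀`, all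
`A` and all such data the following is true for all but `C |A|^(n k - δ k)` of the `|A|^(n k)` systems
of parameters: `s_1, …, s_l` and the `n (d + 1)` numbers above satisfy no nonzero polynomial relation
with algebraic coefficients which has degree at most `D` in each of them.

The proof: the theorem `Pool.Agent.Y918.GB.log1` of the starting library, where it was not handed in,
treats one step, over any space `W` of bounded dimension (theorem of Baker, six exponentials theorem,
cubes, iterated Cauchy-Schwarz inequality); the steps are joined by conditioning, with a space `W` which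
contains the monomials in the numbers of the steps before (`Pool.Agent.U534.Adapt.boxes`).
-/

set_option autoImplicit false

namespace Pool.Agent.Results.MP_60829e_nt.RandomLogsAndPowers

open Module Finset

/-- The numbers `x_i` satisfy no nonzero polynomial relation with algebraic coefficients of degree
at most `D` in each of them. -/
def NoRelation (D : ℕ) {ι : Type} (x : ι → ℂ) : Prop :=
  ∀ p : MvPolynomial ι (algebraicClosure ℚ ℂ), (∀ i, p.degreeOf i ≤ D) →
    MvPolynomial.aeval x p = 0 → p = 0

/-- `F j a` depends only on the parameters `a_{i,r}` with `i < j`. -/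
def Predictable {n k : ℕ} {Y : Type} (F : Fin n → (Fin n → Fin k → ℚ) → Y) : Prop :=
  ∀ (j : Fin n) (a b : Fin n → Fin k → ℚ), (∀ i < j, a i = b i) → F j a = F j b

/-- `λ_1, …, λ_k` are logarithms of algebraic numbers and linearly independent over `ℚ`. -/
def IndependentLogs {k : ℕ} (lam : Fin k → ℂ) : Prop :=
  (∀ r, IsAlgebraic ℚ (Complex.exp (lam r))) ∧ LinearIndependent ℚ lam

/-- The `d + 1` numbers `ζ_j + L_j`, `exp (ξ_{j,i} + β_{j,i} L_j)`, where
`L_j = ∑_r a_{j,r} λ_{j,r}`. -/
noncomputable def numbers {n k d : ℕ} (lam : Fin n → (Fin n → Fin k → ℚ) → Fin k → ℂ)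
    (β : Fin n → (Fin n → Fin k → ℚ) → Fin d → ℂ) (ζ : Fin n → (Fin n → Fin k → ℚ) → ℂ)
    (ξ : Fin n → (Fin n → Fin k → ℚ) → Fin d → ℂ) (a : Fin n → Fin k → ℚ) (j : Fin n) :
    Option (Fin d) → ℂ
  | none => ζ j a + ∑ r, (a j r : ℂ) * lam j a r
  | some i => Complex.exp (ξ j a i + β j a i * ∑ r, (a j r : ℂ) * lam j a r)

open Classical in
/-- **Main result.** -/
theorem result (l n d D : ℕ) : ∃ (k₀ C : ℕ) (δ : ℝ), 0 < δ ∧ ∀ k ≥ k₀, ∀ A : Finset ℚ, A.Nonempty →
    ∀ (lam : Fin n → (Fin n → Fin k → ℚ) → Fin k → ℂ)
      (β : Fin n → (Fin n → Fin k → ℚ) → Fin d → ℂ)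
      (ζ : Fin n → (Fin n → Fin k → ℚ) → ℂ) (ξ : Fin n → (Fin n → Fin k → ℚ) → Fin d → ℂ),
    Predictable lam → Predictable β → Predictable ζ → Predictable ξ →
    (∀ j a, IndependentLogs (lam j a)) →
    (∀ j a, LinearIndependent ℚ (Fin.cons 1 (β j a) : Fin (d + 1) → ℂ)) →
    ∀ s : Fin l → ℂ, NoRelation D s →
    (((Fintype.piFinset fun _ : Fin n => Fintype.piFinset fun _ : Fin k => A).filter
      (fun a : Fin n → Fin k → ℚ => ¬ NoRelation D (Sum.elim s
        (fun v : Fin n × Option (Fin d) => numbers lam β ζ ξ a v.1 v.2)))).card : ℝ) ≤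
      C * (A.card : ℝ) ^ ((n * k : ℝ) - δ * k) := by
  obtain ⟨N₀, hN₀⟩ : ∃ N₀, N₀ = (D + 1) ^ l * Fintype.card (Option (Fin d) → Fin (D + 1)) ^ n :=
    ⟨_, rfl⟩
  obtain ⟨k₀, C, δ, hδ, h⟩ := Pool.Agent.Y918.GB.log1 d N₀ D
  refine ⟨k₀, n * C, δ, hδ, fun k hk A hA lam β ζ ξ hlam hβ hζ hξ hlogs hind s hs => ?_⟩
  obtain ⟨hf, hr⟩ := Pool.Agent.U534.Adapt.monSpan_finite D s
  have hnum : ∀ (j : Fin n) (a b : Fin n → Fin k → ℚ), (∀ i ≤ j, a i = b i) →
      numbers lam β ζ ξ a j = numbers lam β ζ ξ b j := by
    intro j a b hab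
    have h1 : lam j a = lam j b := hlam j a b (fun i hi => hab i hi.le)
    have h2 : β j a = β j b := hβ j a b (fun i hi => hab i hi.le)
    have h3 : ζ j a = ζ j b := hζ j a b (fun i hi => hab i hi.le)
    have h4 : ξ j a = ξ j b := hξ j a b (fun i hi => hab i hi.le)
    funext v
    rcases v with _ | i
    · unfold numbers
      rw [h1, h3, hab j le_rfl]
    · unfold numbers
      rw [h1, h2, h4, hab j le_rfl]
  refine le_trans (Nat.cast_le.2 (Finset.card_le_card ?_))
    (Pool.Agent.U534.Adapt.boxes (E := Option (Fin d) → Fin (D + 1)) (n := n) (N := (D + 1) ^ l)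
      (N₀ := N₀) (k := k) (C := C) (δ := δ) hN₀.ge hA (Pool.Agent.U534.Adapt.monSpan D s) hf hr
      (fun j a => {fun e : Option (Fin d) → Fin (D + 1) =>
        ∏ v, numbers lam β ζ ξ a j v ^ (e v : ℕ)}) ?_ ?_)
  · intro a ha
    rw [Finset.mem_filter] at ha ⊢
    refine ⟨ha.1, fun hg => ha.2 ?_⟩
    obtain ⟨g, hg, hgi⟩ := hg
    have hgT' : g = fun j (e : Option (Fin d) → Fin (D + 1)) =>
        ∏ v, numbers lam β ζ ξ a j v ^ (e v : ℕ) := by
      funext j
      exact hg j
    rw [hgT'] at hgi
    exact Pool.Agent.U534.Adapt.noRelation_sum hs (fun j v => numbers lam β ζ ξ a j v) hgi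
  · intro j a b hab
    simp only [hnum j a b hab]
  · intro j a ha W' hW' hWN'
    refine le_trans (Nat.cast_le.2 (Finset.card_le_card ?_))
      (h k hk (β j a) (lam j a) (hind j a) (hlogs j a).2 (hlogs j a).1 A hA W' hW' hWN'
        (ζ j a) (ξ j a))
    intro p hp
    rw [Finset.mem_filter] at hp ⊢
    refine ⟨hp.1, ?_⟩
    intro hI
    apply hp.2
    refine ⟨_, rfl, ?_⟩
    have h1 : lam j (Function.update a j p) = lam j a :=
      hlam j _ _ (fun i hi => Function.update_of_ne hi.ne _ _)
    have h2 : β j (Function.update a j p) = β j a :=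
      hβ j _ _ (fun i hi => Function.update_of_ne hi.ne _ _)
    have h3 : ζ j (Function.update a j p) = ζ j a :=
      hζ j _ _ (fun i hi => Function.update_of_ne hi.ne _ _)
    have h4 : ξ j (Function.update a j p) = ξ j a :=
      hξ j _ _ (fun i hi => Function.update_of_ne hi.ne _ _)
    have h5 : ∀ v, numbers lam β ζ ξ (Function.update a j p) j v =
        v.elim (ζ j a + ∑ r, (p r : ℂ) * lam j a r)
          (fun i => Complex.exp (ξ j a i + β j a i * ∑ r, (p r : ℂ) * lam j a r)) := by
      intro v
      rcases v with _ | i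
      · unfold numbers
        rw [h1, h3, Function.update_self]
        rfl
      · unfold numbers
        rw [h1, h2, h4, Function.update_self]
        rfl
    simp only [h5]
    exact hI

end Pool.Agent.Results.MP_60829e_nt.RandomLogsAndPowers
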