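import Pool.Agent.U10.Dg.Cx

/-!
# The rank of a point with logarithmic coordinates is bounded by the dimension and the degree of the variety

Let `V` be an irreducible variety in affine `n`-space, defined over the field `ℚ̄` of the algebraic
numbers, of dimension `k` and of degree (at most) `δ`.  Let `l = (l_1, …, l_n)` be a point of `V` whose
coordinates are logarithms of algebraic numbers, and let `r` be the maximal number of coordinates which
are linearly independent over `ℚ`.  If logarithms which are linearly independent over `ℚ` are
algebraically independent, then `r ≤ k`.  We prove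

`(r + 3) ^ 2 ≤ 4 (k + 1) δ + 2 k (k + 1) + 5`

for ALL varieties `V`, in any dimension.  So `r` is bounded in terms of `k` and `δ`; the bound grows like
`2 √((k + 1) δ)` with the degree, and like `√2 k` with the dimension.  In other words: the algebraic
relations between `n` logarithms which are linearly independent over `ℚ`, and which generate a field of
transcendence degree `k`, define a variety of degree at least
`(n ^ 2 / 4 - k (k + 1) / 2) / (k + 1)`.

More generally let `l_i` be linear forms in `1` and logarithms of algebraic numbers with algebraic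
coefficients, and let `v` be the dimension over `ℚ̄` of the space spanned by `1, l_1, …, l_n` (by the
theorem of Baker `v = r + 1` for logarithms).  Then for all `m ≥ 0`

`v + m ⌊v ^ 2 / 4⌋ ≤ δ (m + k choose k) + (m + k choose m + 1)`.

The case `m = 1` is the inequality above; for curves (`k = 1`) one gets `⌊v ^ 2 / 4⌋ ≤ δ` for
`m → ∞`, which is essentially the starting result `FieldDegrees`.

The third part is an explicit version for parametrized points: if the logarithms `l_i` are quotients
`P_i(t) / Q(t)` of polynomials of degree at most `D` with a common denominator, in ARBITRARY complex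
numbers `t_1, …, t_s`, then `(r + 3) ^ 2 ≤ 4 (2 D + s choose s) + 5`.

Proof.  Let `L` be the space spanned by `1, l_1, …, l_n`.  The hyperplane case of the linear subgroup
theorem of Waldschmidt and Roy gives `dim L ^ (m + 1) ≥ dim L ^ m + ⌊v ^ 2 / 4⌋` (starting library).  The
dimension of `L ^ m` is at most the value `H(m)` of the Hilbert function of `V`, as polynomials which vanish
on `V` vanish at `l`.  It remains to prove the bound
`H(m + 1) ≤ δ (m + k choose k) + (m + k choose m + 1)` of Chardin.  A linear Noether normalization
(`Pool.Agent.U10.Dg.Lin`) gives a linear projection `y` of `V` onto affine `k`-space such that the norm of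
a polynomial function of degree `m + 1` is a polynomial in `y` of degree at most `δ (m + 1)`
(`Pool.Agent.U10.Dg.Nrm`).  Over a general point `c` of the affine space consider the functions of
degree `m + 1` which vanish to the order `m + 1` over `c`, and to the order `m + 2` in one point over
`c`; these are at most `δ (m + k choose k) + (m + k choose m + 1)` conditions, and the norm of such a
function vanishes to the order `δ (m + 1) + 1` at `c`, hence identically (`Pool.Agent.U10.Dg.Tay`).
-/

namespace Pool.Agent.Results.MP_60829e_nt.RankDimensionDegree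

open MvPolynomial Module

/-- The field `ℚ̄` of algebraic numbers. -/
noncomputable abbrev QBar : IntermediateField ℚ ℂ := algebraicClosure ℚ ℂ

/-- Linear forms in `1` and logarithms of algebraic numbers, with algebraic coefficients. -/
noncomputable def LogForms : Submodule QBar ℂ :=
  Submodule.span QBar ({1} ∪ {z : ℂ | IsAlgebraic ℚ (Complex.exp z)})

/-- The degree of a variety of dimension `k` with the coordinate functions `x_1, …, x_n` in its function
field `F` is at most `δ`: the dominant linear projections `y` of the variety to the affine space of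
dimension `k` have degree `[F : ℚ̄(y)]` at most `δ`. -/
def DegreeAtMost {F : Type} [Field F] [Algebra QBar F] {n : ℕ} (x : Fin n → F) (k δ : ℕ) : Prop :=
  ∀ y : Fin k → F, (∀ i, y i ∈ Submodule.span QBar (Set.range x)) → AlgebraicIndependent QBar y →
    finrank (IntermediateField.adjoin QBar (Set.range y)) F ≤ δ

/-- The point `l` is on an irreducible variety `V` over `ℚ̄` of dimension `k` and degree at most `δ` in
affine `n`-space.  The variety is given by its function field `F` and the coordinate functions
`x_1, …, x_n`, which generate `F`; its ideal consists of the polynomials `P` with `P(x) = 0`, and its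
dimension is the transcendence degree of `F`. -/
def OnVariety (k δ : ℕ) {n : ℕ} (l : Fin n → ℂ) : Prop :=
  ∃ (F : Type) (_ : Field F) (_ : Algebra QBar F) (x : Fin n → F),
    IntermediateField.adjoin QBar (Set.range x) = ⊤ ∧ Algebra.trdeg QBar F = k ∧
      DegreeAtMost x k δ ∧ ∀ P : MvPolynomial (Fin n) QBar, aeval x P = 0 → aeval l P = 0

/-- The rank over `ℚ` of the numbers `l_i`. -/
noncomputable def rank {n : ℕ} (l : Fin n → ℂ) : ℕ := finrank ℚ (Submodule.span ℚ (Set.range l))

/-- The dimension over `ℚ̄` of the space spanned by `1` and the `l_i`. -/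
noncomputable def dimOne {n : ℕ} (l : Fin n → ℂ) : ℕ :=
  finrank QBar (Submodule.span QBar ({1} ∪ Set.range l))

theorem bound {n k δ : ℕ} {l : Fin n → ℂ} (h : OnVariety k δ l)
    (hl : ∀ i, l i ∈ LogForms) (v : ℕ) (hv : v ≤ dimOne l) (m : ℕ) :
    v + m * (v ^ 2 / 4) ≤ δ * (m + k).choose k + (m + k).choose (m + 1) := by
  obtain ⟨F, _, _, x, hx, hk, hδ, hV⟩ := h
  have := Pool.Agent.U10.Dg.hypC_complex
  exact Pool.Agent.U10.Dg.degree_bound (Lt := Pool.Agent.H301R2.SSE.Lt) x hx hk hδ l hl hV v hv m

/-- The numbers `l_i` are quotients `P_i(t) / Q(t)` of polynomials over `ℚ̄` of degree at most `D` in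
`s` complex numbers `t_1, …, t_s`. -/
def Quotients (s D : ℕ) {n : ℕ} (l : Fin n → ℂ) : Prop :=
  ∃ (t : Fin s → ℂ) (Q : MvPolynomial (Fin s) QBar) (P : Fin n → MvPolynomial (Fin s) QBar),
    Q.totalDegree ≤ D ∧ aeval t Q ≠ 0 ∧
      ∀ i, (P i).totalDegree ≤ D ∧ l i = aeval t (P i) / aeval t Q

/-- The numbers `l_i` are logarithms of algebraic numbers. -/
def AreLogs {n : ℕ} (l : Fin n → ℂ) : Prop := ∀ i, IsAlgebraic ℚ (Complex.exp (l i))

/-- **Main result.** -/
theorem result (n : ℕ) (l : Fin n → ℂ) :
    (∀ k δ, OnVariety k δ l → (∀ i, l i ∈ LogForms) → ∀ m,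
      dimOne l + m * (dimOne l ^ 2 / 4) ≤ δ * (m + k).choose k + (m + k).choose (m + 1)) ∧
    (∀ k δ, OnVariety k δ l → AreLogs l →
      (rank l + 3) ^ 2 ≤ 4 * (k + 1) * δ + 2 * k * (k + 1) + 5) ∧
    (∀ s D, Quotients s D l → AreLogs l → (rank l + 3) ^ 2 ≤ 4 * (2 * D + s).choose s + 5) := by
  refine ⟨?_, ?_, ?_⟩
  · intro k δ h hl m
    exact bound h hl _ le_rfl m
  · intro k δ h hl
    exact Pool.Agent.U10.Dg.square_bound (bound h
      (fun i => Pool.Agent.H301R2.SSE.Lt_log (hl i)) (rank l + 1)
      (Pool.Agent.U10.Dg.rank_succ_le l hl) 1)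
  · rintro s D ⟨t, Q, P, hQ, hQt, hP⟩ hl
    have := Pool.Agent.U10.Dg.hypC_complex
    have h1 := Pool.Agent.U10.Dg.growth_low (Lt := Pool.Agent.H301R2.SSE.Lt) l
      (fun i => Pool.Agent.H301R2.SSE.Lt_log (hl i)) (rank l + 1)
      (Pool.Agent.U10.Dg.rank_succ_le l hl) 1
    have h2 := Pool.Agent.U10.Dg.growth_up l t Q hQ hQt P (fun i => (hP i).1)
      (fun i => by rw [(hP i).2, div_mul_cancel₀ _ hQt]) 2
    exact Pool.Agent.U10.Dg.square_bound' (h1.trans h2)

end Pool.Agent.Results.MP_60829e_nt.RankDimensionDegree
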